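import Pool.Agent.P8H12.SO.Stm

/-! # Project ST, package UNI -/

set_option autoImplicit false

namespace Pool.Agent.P8H40.ST

open Pool.Agent.P8H12.ST Matrix

section

variable {R : Type} [CommRing R]

lemma up_add (x y : R) : up x * up y = up (x + y) := by
  apply Subtype.ext
  rw [Matrix.SpecialLinearGroup.coe_mul]
  show !![1, x; 0, 1] * !![1, y; 0, 1] = !![1, x + y; 0, 1]
  rw [Matrix.mul_fin_two]
  simp [add_comm]

lemma lo_add (x y : R) : lo x * lo y = lo (x + y) := by
  apply Subtype.ext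
  rw [Matrix.SpecialLinearGroup.coe_mul]
  show !![1, 0; x, 1] * !![1, 0; y, 1] = !![1, 0; x + y, 1]
  rw [Matrix.mul_fin_two]
  simp

lemma up_zero : up (0 : R) = 1 := by
  apply Subtype.ext
  show !![1, 0; 0, 1] = (1 : Matrix (Fin 2) (Fin 2) R)
  rw [Matrix.one_fin_two]

lemma lo_zero : lo (0 : R) = 1 := by
  apply Subtype.ext
  show !![1, 0; 0, 1] = (1 : Matrix (Fin 2) (Fin 2) R)
  rw [Matrix.one_fin_two]

lemma up_neg (x : R) : (up x)⁻¹ = up (-x) := by
  rw [inv_eq_iff_mul_eq_one, up_add, add_neg_cancel, up_zero]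

lemma lo_neg (x : R) : (lo x)⁻¹ = lo (-x) := by
  rw [inv_eq_iff_mul_eq_one, lo_add, add_neg_cancel, lo_zero]

lemma up_pow (x : R) (n : ℕ) : up x ^ n = up ((n : R) * x) := by
  induction n with
  | zero => rw [pow_zero, Nat.cast_zero, zero_mul, up_zero]
  | succ n ih =>
    rw [pow_succ, ih, up_add]
    congr 1
    push_cast
    ring

lemma lo_pow (x : R) (n : ℕ) : lo x ^ n = lo ((n : R) * x) := by
  induction n with
  | zero => rw [pow_zero, Nat.cast_zero, zero_mul, lo_zero]
  | succ n ih =>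
    rw [pow_succ, ih, lo_add]
    congr 1
    push_cast
    ring

/-- the diagonal matrix -/
def dg (t t' : R) (h : t * t' = 1) : Matrix.SpecialLinearGroup (Fin 2) R :=
  ⟨!![t, 0; 0, t'], by simp [Matrix.det_fin_two, h]⟩

lemma dg_eq (a b t' : R) (h : (1 + a * b) * t' = 1) :
    lo (-b * t') * up a * lo b * up (-a * t') = dg (1 + a * b) t' h := by
  apply Subtype.ext
  simp only [Matrix.SpecialLinearGroup.coe_mul]
  show !![1, 0; -b * t', 1] * !![1, a; 0, 1] * !![1, 0; b, 1] * !![1, -a * t'; 0, 1] = !![1 + a * b, 0; 0, t']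
  rw [Matrix.mul_fin_two, Matrix.mul_fin_two, Matrix.mul_fin_two]
  congr 1
  ext i j
  fin_cases i <;> fin_cases j
  · simp
  · simp
    linear_combination (-a) * h
  · simp
    linear_combination (-b) * h
  · simp
    linear_combination (a * b * t' - 1) * h

lemma dg_up (t t' y : R) (h : t * t' = 1) : dg t t' h * up y = up (t ^ 2 * y) * dg t t' h := by
  apply Subtype.ext
  simp only [Matrix.SpecialLinearGroup.coe_mul]
  show !![t, 0; 0, t'] * !![1, y; 0, 1] = !![1, t ^ 2 * y; 0, 1] * !![t, 0; 0, t']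
  rw [Matrix.mul_fin_two, Matrix.mul_fin_two]
  congr 1
  ext i j
  fin_cases i <;> fin_cases j
  · simp
  · simp
    linear_combination (-t * y) * h
  · simp
  · simp

lemma dg_lo (t t' y : R) (h : t * t' = 1) (h' : t' * t = 1) : dg t' t h' * lo y = lo (t ^ 2 * y) * dg t' t h' := by
  apply Subtype.ext
  simp only [Matrix.SpecialLinearGroup.coe_mul]
  show !![t', 0; 0, t] * !![1, 0; y, 1] = !![1, 0; t ^ 2 * y, 1] * !![t', 0; 0, t]
  rw [Matrix.mul_fin_two, Matrix.mul_fin_two]
  congr 1
  ext i j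
  fin_cases i <;> fin_cases j
  · simp
  · simp
  · simp
    linear_combination (-t * y) * h
  · simp

lemma dg_inv (t t' : R) (h : t * t' = 1) (h' : t' * t = 1) : (dg t t' h)⁻¹ = dg t' t h' := by
  rw [inv_eq_iff_mul_eq_one]
  apply Subtype.ext
  simp only [Matrix.SpecialLinearGroup.coe_mul]
  show !![t, 0; 0, t'] * !![t', 0; 0, t] = (1 : Matrix (Fin 2) (Fin 2) R)
  rw [Matrix.mul_fin_two, Matrix.one_fin_two]
  simp [h, h']

/-- the step -/
lemma step {H : Subgroup (Matrix.SpecialLinearGroup (Fin 2) R)} {m : R} (hu : ∀ x, up (m * x) ∈ H) (hl : ∀ x, lo (m * x) ∈ H)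
    {t' : R} (h : (1 + m * m) * t' = 1) (y : R) :
    up (((1 + m * m) ^ 2 - 1) * (m * y)) ∈ ⁅H, H⁆ ∧ lo (((1 + m * m) ^ 2 - 1) * (m * y)) ∈ ⁅H, H⁆ := by
  have hd : dg (1 + m * m) t' h ∈ H := by
    rw [← dg_eq]
    refine mul_mem (mul_mem (mul_mem ?_ ?_) ?_) ?_
    · have := hl (-t')
      rwa [mul_neg, ← neg_mul] at this
    · have := hu 1
      rwa [mul_one] at this
    · have := hl 1
      rwa [mul_one] at this
    · have := hu (-t')
      rwa [mul_neg, ← neg_mul] at this
  have h' : t' * (1 + m * m) = 1 := by rw [mul_comm]; exact h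
  constructor
  · have h1 := Subgroup.commutator_mem_commutator hd (hu y)
    rw [commutatorElement_def, dg_up, mul_inv_cancel_right, up_neg, up_add] at h1
    convert h1 using 2
    ring
  · have hd' : dg t' (1 + m * m) h' ∈ H := by
      rw [← dg_inv _ _ h h']
      exact inv_mem hd
    have h1 := Subgroup.commutator_mem_commutator hd' (hl y)
    rw [commutatorElement_def, dg_lo _ _ _ h h', mul_inv_cancel_right, lo_neg, lo_add] at h1
    convert h1 using 2
    ring

end

lemma unit_inv {l a n : ℕ} (hl : l.Prime) (hn : ¬ l ∣ n) : ∃ t : ZMod (l ^ a), (n : ZMod (l ^ a)) * t = 1 := by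
  have h1 : IsUnit (n : ZMod (l ^ a)) := by
    rw [ZMod.isUnit_iff_coprime]
    exact (Nat.Coprime.pow_right a ((Nat.Prime.coprime_iff_not_dvd hl).2 hn).symm)
  obtain ⟨u, hu⟩ := h1
  exact ⟨(u⁻¹ : (ZMod (l ^ a))ˣ), by rw [← hu, Units.mul_inv]⟩

lemma dvd_mm {l d : ℕ} (hl : 1 ≤ l) (hld : l ≤ max d 3) : ∀ s, l ∣ mm d s := by
  intro s
  induction s with
  | zero =>
    show l ∣ (Finset.Icc 1 (max d 3)).lcm id
    exact Finset.dvd_lcm (f := id) (Finset.mem_Icc.2 ⟨hl, hld⟩)
  | succ s ih =>
    show l ∣ 2 * mm d s ^ 3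
    exact (dvd_pow ih (by norm_num)).mul_left 2

theorem uni : S_UNI := by
  intro l a d s hl hd S hS
  -- the large primes
  have hlarge : max d 3 < l → ∀ s, ∀ x : ZMod (l ^ a), up x ∈ der S s ∧ lo x ∈ der S s := by
    intro hlt s
    induction s with
    | zero =>
      intro x
      constructor
      · obtain ⟨r, hr1, hr2, hr⟩ := hS (up 1)
        obtain ⟨t, ht⟩ := unit_inv (a := a) hl (n := r) (fun h => by
          have := Nat.le_of_dvd (by omega) h
          have := le_max_left d 3
          omega)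
        rw [up_pow, mul_one] at hr
        have h1 := pow_mem hr (t * x).val
        rw [up_pow] at h1
        have : NeZero (l ^ a) := ⟨pow_ne_zero a hl.ne_zero⟩
        rw [ZMod.natCast_zmod_val] at h1
        have e : t * x * (r : ZMod (l ^ a)) = x := by linear_combination x * ht
        rwa [e] at h1
      · obtain ⟨r, hr1, hr2, hr⟩ := hS (lo 1)
        obtain ⟨t, ht⟩ := unit_inv (a := a) hl (n := r) (fun h => by
          have := Nat.le_of_dvd (by omega) h
          have := le_max_left d 3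
          omega)
        rw [lo_pow, mul_one] at hr
        have h1 := pow_mem hr (t * x).val
        rw [lo_pow] at h1
        have : NeZero (l ^ a) := ⟨pow_ne_zero a hl.ne_zero⟩
        rw [ZMod.natCast_zmod_val] at h1
        have e : t * x * (r : ZMod (l ^ a)) = x := by linear_combination x * ht
        rwa [e] at h1
    | succ s ih =>
      intro x
      have h3l : 3 < l := lt_of_le_of_lt (le_max_right d 3) hlt
      obtain ⟨t, ht⟩ := unit_inv (a := a) hl (n := 2) (fun h => by
        have := Nat.le_of_dvd (by omega) h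
        omega)
      obtain ⟨t3, ht3⟩ := unit_inv (a := a) hl (n := 3) (fun h => by
        have := Nat.le_of_dvd (by omega) h
        omega)
      push_cast at ht ht3
      have h1 := step (H := der S s) (m := (1 : ZMod (l ^ a))) (fun x => (ih _).1) (fun x => (ih _).2) (t' := t) (by
        linear_combination ht) (t3 * x)
      have e : ((1 + (1 : ZMod (l ^ a)) * 1) ^ 2 - 1) * (1 * (t3 * x)) = x := by linear_combination x * ht3
      rw [e] at h1
      exact h1
  refine ⟨fun x => ?_, fun hlt => hlarge hlt s⟩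
  rcases lt_or_ge (max d 3) l with hlt | hle
  · exact ⟨(hlarge hlt s _).1, (hlarge hlt s _).2⟩
  -- the small primes
  have hdvd := dvd_mm (d := d) hl.one_le hle
  induction s generalizing x with
  | zero =>
    have hr : ∀ r : ℕ, 1 ≤ r → r ≤ d → ∃ k, mm d 0 = k * r := fun r h1 h2 => by
      obtain ⟨k, hk⟩ : r ∣ (Finset.Icc 1 (max d 3)).lcm id :=
        Finset.dvd_lcm (f := id) (Finset.mem_Icc.2 ⟨h1, h2.trans (le_max_left d 3)⟩)
      exact ⟨k, by rw [mul_comm]; exact hk⟩
    constructor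
    · obtain ⟨r, hr1, hr2, hr3⟩ := hS (up x)
      obtain ⟨k, hk⟩ := hr r hr1 hr2
      rw [up_pow] at hr3
      have h1 := pow_mem hr3 k
      rw [up_pow] at h1
      rw [hk]
      push_cast
      rwa [mul_assoc]
    · obtain ⟨r, hr1, hr2, hr3⟩ := hS (lo x)
      obtain ⟨k, hk⟩ := hr r hr1 hr2
      rw [lo_pow] at hr3
      have h1 := pow_mem hr3 k
      rw [lo_pow] at h1
      rw [hk]
      push_cast
      rwa [mul_assoc]
  | succ s ih =>
    obtain ⟨m, hm⟩ : ∃ m, mm d s = m := ⟨_, rfl⟩
    have hlm : l ∣ m := hm ▸ hdvd s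
    rw [hm] at ih
    have hmm : mm d (s + 1) = 2 * m ^ 3 := by rw [← hm]; rfl
    obtain ⟨t, ht⟩ := unit_inv (a := a) hl (n := 1 + m * m) (fun h => by
      have h1 : l ∣ 1 := by
        have h2 : l ∣ m * m := hlm.mul_left m
        exact (Nat.dvd_add_left h2).1 h
      exact hl.one_lt.ne' (Nat.dvd_one.1 h1))
    push_cast at ht
    -- the factor
    obtain ⟨w, hw⟩ : ∃ w : ZMod (l ^ a), ((m : ZMod (l ^ a)) * m + 2) * w = 2 := by
      by_cases hl2 : l = 2
      · obtain ⟨n, hn⟩ : 2 ∣ m := hl2 ▸ hlm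
        obtain ⟨w, hw⟩ := unit_inv (a := a) hl (n := 2 * (n * n) + 1) (fun h => by
          rw [hl2] at h
          omega)
        push_cast at hw
        refine ⟨w, ?_⟩
        rw [hn]
        push_cast
        linear_combination 2 * hw
      · obtain ⟨w, hw⟩ := unit_inv (a := a) hl (n := m * m + 2) (fun h => by
          have h1 : l ∣ 2 := (Nat.dvd_add_right (hlm.mul_left m)).1 h
          exact hl2 ((Nat.prime_dvd_prime_iff_eq hl Nat.prime_two).1 h1))
        push_cast at hw
        exact ⟨2 * w, by linear_combination 2 * hw⟩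
    have h1 := step (H := der S s) (m := (m : ZMod (l ^ a))) (fun x => (ih x).1) (fun x => (ih x).2) ht (w * x)
    have e : ((1 + (m : ZMod (l ^ a)) * m) ^ 2 - 1) * (m * (w * x)) = ((mm d (s + 1) : ℕ) : ZMod (l ^ a)) * x := by
      rw [hmm]
      push_cast
      linear_combination (m : ZMod (l ^ a)) ^ 3 * x * hw
    rw [e] at h1
    exact h1

end Pool.Agent.P8H40.ST
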